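import Mathlib

set_option autoImplicit false

/-!
# A generalized Collatz map that is not onto and has only finitely many ergodic sets

The map `T` with `d = 3`, all multipliers equal to `2` and `r = (3, -1, 1)`, that is
`T (2 y + 1) = 2 ⌊2 y / 3⌋ + 1`, takes only odd values. Its only ergodic sets are the set of all
integers (at the odd moduli) and the set of the odd integers (at the even moduli).

The reason is that for `w ≥ 0` the preimages of `w` under the iterates of `y ↦ ⌊2 y / 3⌋` are intervals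
of integers whose length tends to infinity, so they meet every nonempty periodic set.
-/

namespace Pool.Agent.Results.MP_c1c042_nt.FiniteNotOnto

/-- The generalized Collatz map with the data `d`, `m 0, ..., m (d - 1)`, `r 0, ..., r (d - 1)`:
`T x = (m i * x - r i) / d` for `x ≡ i` modulo `d`. -/
def T (d : ℕ) (m r : ℕ → ℤ) (x : ℤ) : ℤ := (m (x % d).toNat * x - r (x % d).toNat) / d

/-- The data define a generalized Collatz map of relatively prime type. -/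
def RelativelyPrimeType (d : ℕ) (m r : ℕ → ℤ) : Prop :=
  2 ≤ d ∧ (∀ i < d, m i ≠ 0) ∧ (∀ i < d, r i ≡ i * m i [ZMOD d]) ∧
    Int.gcd (∏ i ∈ Finset.range d, m i) d = 1

/-- The congruence class of `j` modulo `M`. -/
def B (j : ℤ) (M : ℕ) : Set ℤ := {x | x ≡ j [ZMOD M]}

/-- The measure of a union `S` of congruence classes modulo `n`: the number of these classes, divided
by `n`. -/
noncomputable def μ (n : ℕ) (S : Set ℤ) : ℝ := ({x : ℤ | 0 ≤ x ∧ x < n ∧ x ∈ S}.ncard : ℝ) / n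

/-- The transition matrix `Q_T (M)`: the entry at `i, j` is `μ (B (i, M) ∩ T⁻¹ (B (j, M))) / μ (B (i, M))`
(the set `B (i, M) ∩ T⁻¹ (B (j, M))` is a union of congruence classes modulo `d M`). -/
noncomputable def Q (d : ℕ) (m r : ℕ → ℤ) (M : ℕ) : Matrix (Fin M) (Fin M) ℝ := fun i j =>
  μ (d * M) (B i M ∩ T d m r ⁻¹' B j M) / μ M (B i M)

/-- `𝒞` is a positive recurrent class of the finite Markov chain with the transition matrix `P`: it is
not empty, closed, and its states communicate. -/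
def RecurrentClass {M : ℕ} (P : Matrix (Fin M) (Fin M) ℝ) (𝒞 : Set (Fin M)) : Prop :=
  𝒞.Nonempty ∧ (∀ i ∈ 𝒞, ∀ j, 0 < P i j → j ∈ 𝒞) ∧ ∀ i ∈ 𝒞, ∀ j ∈ 𝒞, ∃ n : ℕ, 0 < (P ^ n) i j

/-- The collection `ℰ (T)` of the ergodic sets: the unions of the congruence classes modulo `M` that
belong to a positive recurrent class of `Q_T (M)`, for all `M ≥ 2`. -/
def E (d : ℕ) (m r : ℕ → ℤ) : Set (Set ℤ) :=
  {S | ∃ M : ℕ, 2 ≤ M ∧ ∃ 𝒞 : Set (Fin M), RecurrentClass (Q d m r M) 𝒞 ∧ S = ⋃ i ∈ 𝒞, B i M}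

/-! ### proofs -/

/-- `F y = ⌊2 y / 3⌋` -/
def F (y : ℤ) : ℤ := 2 * y / 3

/-- `G x = ⌈3 x / 2⌉` -/
def G (x : ℤ) : ℤ := (3 * x + 1) / 2

theorem F_iff (y l u : ℤ) : (l ≤ F y ∧ F y < u) ↔ (G l ≤ y ∧ y < G u) := by
  unfold F G; omega

theorem F_iter (n : ℕ) : ∀ y l u : ℤ, (l ≤ F^[n] y ∧ F^[n] y < u) ↔ (G^[n] l ≤ y ∧ y < G^[n] u) := by
  induction n with
  | zero => intro y l u; simp
  | succ n ih =>
    intro y l u
    rw [Function.iterate_succ_apply', F_iff, Function.iterate_succ_apply, Function.iterate_succ_apply]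
    exact ih y (G l) (G u)

/-- the intervals of preimages have eventually at least two elements -/
theorem two (k : ℕ) : ∀ w : ℤ, 0 < w + 1 → ¬ (2 : ℤ) ^ (k + 1) ∣ w + 1 →
    ∃ n : ℕ, G^[n] w + 2 ≤ G^[n] (w + 1) := by
  induction k with
  | zero =>
    intro w _ h
    refine ⟨1, ?_⟩
    rw [zero_add, pow_one] at h
    simp only [Function.iterate_one]
    unfold G
    omega
  | succ k ih =>
    intro w hw h
    by_cases h2 : (2 : ℤ) ∣ w + 1
    · obtain ⟨t, ht⟩ := h2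
      have e1 : G w = 3 * t - 1 := by unfold G; omega
      have e2 : G (w + 1) = 3 * t := by unfold G; omega
      have h3 : ¬ (2 : ℤ) ^ (k + 1) ∣ (3 * t - 1) + 1 := by
        intro h4
        apply h
        have h5 : (2 : ℤ) ^ (k + 1) ∣ 3 * t := by simpa using h4
        have h6 : (2 : ℤ) ^ (k + 1) ∣ t := by
          refine IsCoprime.dvd_of_dvd_mul_left ?_ h5
          exact IsCoprime.pow_left (by norm_num)
        rw [ht, pow_succ, mul_comm ((2 : ℤ) ^ (k + 1)) 2]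
        exact mul_dvd_mul_left 2 h6
      obtain ⟨n, hn⟩ := ih (3 * t - 1) (by omega) h3
      refine ⟨n + 1, ?_⟩
      rw [Function.iterate_succ_apply, Function.iterate_succ_apply, e1, e2]
      have e3 : 3 * t - 1 + 1 = 3 * t := by ring
      rw [e3] at hn
      exact hn
    · refine ⟨1, ?_⟩
      simp only [Function.iterate_one]
      unfold G
      omega

/-- the lengths of the intervals of preimages tend to infinity -/
theorem long (w : ℤ) (hw : 0 ≤ w) (L : ℕ) : ∃ n : ℕ, G^[n] w + L ≤ G^[n] (w + 1) := by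
  have h1 : ∃ k : ℕ, ¬ (2 : ℤ) ^ (k + 1) ∣ w + 1 := by
    refine ⟨(w + 1).toNat, fun h => ?_⟩
    have h2 := Int.le_of_dvd (by omega) h
    have h3 : ((w + 1).toNat : ℤ) = w + 1 := Int.toNat_of_nonneg (by omega)
    have h4 : (w + 1).toNat + 1 < 2 ^ ((w + 1).toNat + 1) := Nat.lt_two_pow_self
    have h5 : (((w + 1).toNat + 1 : ℕ) : ℤ) < ((2 ^ ((w + 1).toNat + 1) : ℕ) : ℤ) := by exact_mod_cast h4
    push_cast at h5
    omega
  obtain ⟨k, hk⟩ := h1
  obtain ⟨n, hn⟩ := two k w (by omega) hk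
  induction L with
  | zero => exact ⟨n, by push_cast; omega⟩
  | succ L ih =>
    obtain ⟨n', hn'⟩ := ih
    rcases Nat.lt_or_ge L 2 with hL | hL
    · exact ⟨n, by push_cast; omega⟩
    · refine ⟨n' + 1, ?_⟩
      rw [Function.iterate_succ_apply', Function.iterate_succ_apply']
      unfold G at *
      push_cast
      omega

/-- a nonempty periodic set mapped to itself by `F` contains all integers -/
theorem all_of_closed {S : Set ℤ} {M : ℕ} (hM : 0 < M) (hne : S.Nonempty)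
    (hper : ∀ x y : ℤ, x ≡ y [ZMOD M] → x ∈ S → y ∈ S) (hF : ∀ y ∈ S, F y ∈ S) (w : ℤ) : w ∈ S := by
  obtain ⟨s, hs⟩ := hne
  have hM' : (0 : ℤ) < M := by exact_mod_cast hM
  -- a nonnegative representative
  have hw0 : 0 ≤ w % M := Int.emod_nonneg _ hM'.ne'
  obtain ⟨n, hn⟩ := long (w % M) hw0 M
  set l := G^[n] (w % M) with hl
  -- the element of the class of `s` in `[l, l + M)`
  set y : ℤ := l + (s - l) % M with hy
  have h1 : 0 ≤ (s - l) % M := Int.emod_nonneg _ hM'.ne'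
  have h2 : (s - l) % M < M := Int.emod_lt_of_pos _ hM'
  have hys : s ≡ y [ZMOD M] := by
    have h3 : (s - l) ≡ (s - l) % M [ZMOD M] := (Int.mod_modEq _ _).symm
    have h4 := h3.add_left l
    have e : l + (s - l) = s := by ring
    rw [e] at h4
    exact h4
  have hyS : y ∈ S := hper s y hys hs
  have hiter : ∀ k : ℕ, F^[k] y ∈ S := by
    intro k
    induction k with
    | zero => exact hyS
    | succ k ih => rw [Function.iterate_succ_apply']; exact hF _ ih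
  have h5 := (F_iter n y (w % M) (w % M + 1)).2 ⟨by omega, by omega⟩
  have h6 : F^[n] y = w % M := by omega
  have h7 := hiter n
  rw [h6] at h7
  exact hper _ _ (Int.mod_modEq _ _) h7

/-- the multipliers -/
def m₀ : ℕ → ℤ := fun _ => 2

/-- the offsets -/
def r₀ : ℕ → ℤ := fun i => if i = 0 then 3 else if i = 1 then -1 else 1

/-- the map in closed form -/
theorem T_eq (x : ℤ) : T 3 m₀ r₀ x =
    if x % 3 = 0 then (2 * x - 3) / 3 else if x % 3 = 1 then (2 * x + 1) / 3 else (2 * x - 1) / 3 := by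
  have h : x % 3 = 0 ∨ x % 3 = 1 ∨ x % 3 = 2 := by omega
  have h' : (x % ((3 : ℕ) : ℤ)).toNat = 0 ∧ x % 3 = 0 ∨ (x % ((3 : ℕ) : ℤ)).toNat = 1 ∧ x % 3 = 1 ∨
      (x % ((3 : ℕ) : ℤ)).toNat = 2 ∧ x % 3 = 2 := by
    push_cast; omega
  rcases h' with ⟨h1, h2⟩ | ⟨h1, h2⟩ | ⟨h1, h2⟩
  · simp [T, m₀, r₀, h1, h2]
  · simp [T, m₀, r₀, h1, h2]
  · simp [T, m₀, r₀, h1, h2]

theorem T_add (x k : ℤ) : T 3 m₀ r₀ (x + 3 * k) = T 3 m₀ r₀ x + 2 * k := by
  rw [T_eq, T_eq]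
  have h : (x + 3 * k) % 3 = x % 3 := by omega
  rw [h]
  split_ifs <;> omega

theorem T_odd (x : ℤ) : T 3 m₀ r₀ x % 2 = 1 := by
  rw [T_eq]
  split_ifs <;> omega

theorem T_F (y : ℤ) : T 3 m₀ r₀ (2 * y + 1) = 2 * F y + 1 := by
  rw [T_eq]
  unfold F
  split_ifs <;> omega

/-- the entries of the transition matrix are positive where there is a transition -/
theorem Q_pos {M : ℕ} (hM : 0 < M) (i j : Fin M) (x : ℤ) (hx : x ≡ i [ZMOD M])
    (hT : T 3 m₀ r₀ x ≡ j [ZMOD M]) : 0 < Q 3 m₀ r₀ M i j := by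
  have hMi : (0 : ℤ) < M := by exact_mod_cast hM
  have hMr : (0 : ℝ) < M := by exact_mod_cast hM
  unfold Q
  apply div_pos
  · unfold μ
    apply div_pos _ (by push_cast; positivity)
    have hfin : {z : ℤ | 0 ≤ z ∧ z < ((3 * M : ℕ) : ℤ) ∧ z ∈ B i M ∩ T 3 m₀ r₀ ⁻¹' B j M}.Finite := by
      apply (Set.finite_Icc (0 : ℤ) ((3 * M : ℕ) : ℤ)).subset
      rintro z ⟨h1, h2, -⟩
      exact ⟨h1, h2.le⟩
    have hne : {z : ℤ | 0 ≤ z ∧ z < ((3 * M : ℕ) : ℤ) ∧ z ∈ B i M ∩ T 3 m₀ r₀ ⁻¹' B j M}.Nonempty := by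
      refine ⟨x % (3 * M), ?_, ?_, ?_, ?_⟩
      · exact Int.emod_nonneg _ (by omega)
      · push_cast
        exact Int.emod_lt_of_pos _ (by omega)
      · change x % (3 * M) ≡ i [ZMOD M]
        have h1 : x % (3 * M) ≡ x [ZMOD (3 * M)] := Int.mod_modEq _ _
        exact (h1.of_mul_left 3).trans hx
      · change T 3 m₀ r₀ (x % (3 * M)) ≡ j [ZMOD M]
        have e : x % (3 * M) = x + 3 * (-(M * (x / (3 * M)))) := by
          have := Int.emod_add_mul_ediv x (3 * M)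
          linarith
        rw [e, T_add]
        refine Int.ModEq.trans ?_ hT
        rw [Int.modEq_iff_dvd]
        exact ⟨2 * (x / (3 * M)), by ring⟩
    have h1 := (Set.ncard_pos hfin).2 hne
    exact_mod_cast h1
  · unfold μ
    apply div_pos _ hMr
    have hfin : {z : ℤ | 0 ≤ z ∧ z < (M : ℤ) ∧ z ∈ B i M}.Finite := by
      apply (Set.finite_Icc (0 : ℤ) (M : ℤ)).subset
      rintro z ⟨h1, h2, -⟩
      exact ⟨h1, h2.le⟩
    have hne : {z : ℤ | 0 ≤ z ∧ z < (M : ℤ) ∧ z ∈ B i M}.Nonempty :=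
      ⟨(i : ℕ), by positivity, by exact_mod_cast i.2, Int.ModEq.refl _⟩
    have h1 := (Set.ncard_pos hfin).2 hne
    exact_mod_cast h1

/-- the entries of the transition matrix vanish where there is no transition -/
theorem Q_zero {M : ℕ} (i j : Fin M) (h : ∀ x : ℤ, ¬ T 3 m₀ r₀ x ≡ j [ZMOD M]) : Q 3 m₀ r₀ M i j = 0 := by
  unfold Q μ
  have : {z : ℤ | 0 ≤ z ∧ z < ((3 * M : ℕ) : ℤ) ∧ z ∈ B i M ∩ T 3 m₀ r₀ ⁻¹' B j M} = ∅ := by
    rw [Set.eq_empty_iff_forall_notMem]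
    rintro z ⟨-, -, -, h2⟩
    exact h z h2
  rw [this]
  simp

theorem mem_union {M : ℕ} {𝒞 : Set (Fin M)} {x : ℤ} {i : Fin M} (h : x ≡ i [ZMOD M]) :
    x ∈ (⋃ i ∈ 𝒞, B (i : ℕ) M) ↔ i ∈ 𝒞 := by
  simp only [Set.mem_iUnion, exists_prop]
  constructor
  · rintro ⟨j, hj, hx⟩
    have hx' : x ≡ ((j : ℕ) : ℤ) [ZMOD M] := hx
    have h1 : ((i : ℕ) : ℤ) ≡ ((j : ℕ) : ℤ) [ZMOD M] := h.symm.trans hx'
    have h2 : (i : ℕ) ≡ (j : ℕ) [MOD M] := (Int.natCast_modEq_iff).1 h1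
    have h3 : (i : ℕ) = (j : ℕ) := Nat.ModEq.eq_of_lt_of_lt h2 i.2 j.2
    have h4 : i = j := Fin.ext h3
    rw [h4]; exact hj
  · intro hi
    exact ⟨i, hi, h⟩

theorem exists_fin {M : ℕ} (hM : 0 < M) (x : ℤ) : ∃ i : Fin M, x ≡ ((i : ℕ) : ℤ) [ZMOD M] := by
  have hMi : (0 : ℤ) < M := by exact_mod_cast hM
  have h0 := Int.emod_nonneg x hMi.ne'
  have h1 := Int.emod_lt_of_pos x hMi
  refine ⟨⟨(x % M).toNat, by omega⟩, ?_⟩
  simp only
  rw [Int.toNat_of_nonneg h0]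
  exact (Int.mod_modEq _ _).symm

/-- a closed class contains all odd integers -/
theorem odd_mem {M : ℕ} (hM : 0 < M) {𝒞 : Set (Fin M)} (hne : 𝒞.Nonempty)
    (hcl : ∀ i ∈ 𝒞, ∀ j, 0 < Q 3 m₀ r₀ M i j → j ∈ 𝒞) (y : ℤ) : 2 * y + 1 ∈ ⋃ i ∈ 𝒞, B (i : ℕ) M := by
  set S : Set ℤ := ⋃ i ∈ 𝒞, B (i : ℕ) M with hS
  have hper : ∀ x y : ℤ, x ≡ y [ZMOD M] → x ∈ S → y ∈ S := by
    intro x y hxy hx
    obtain ⟨i, hi⟩ := exists_fin hM x
    rw [hS, mem_union hi] at hx
    rw [hS, mem_union (hxy.symm.trans hi)]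
    exact hx
  have hT : ∀ x ∈ S, T 3 m₀ r₀ x ∈ S := by
    intro x hx
    obtain ⟨i, hi⟩ := exists_fin hM x
    obtain ⟨j, hj⟩ := exists_fin hM (T 3 m₀ r₀ x)
    rw [hS, mem_union hi] at hx
    rw [hS, mem_union hj]
    exact hcl i hx j (Q_pos hM i j x hi hj)
  have hF : ∀ y ∈ {y : ℤ | 2 * y + 1 ∈ S}, F y ∈ {y : ℤ | 2 * y + 1 ∈ S} := by
    intro y hy
    have h1 := hT _ hy
    rw [T_F] at h1
    exact h1
  refine all_of_closed (S := {y : ℤ | 2 * y + 1 ∈ S}) hM ?_ ?_ hF y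
  · obtain ⟨i, hi⟩ := hne
    have h1 : ((i : ℕ) : ℤ) ∈ S := by
      rw [hS, mem_union (Int.ModEq.refl _)]; exact hi
    have h2 := hT _ h1
    have h3 := T_odd ((i : ℕ) : ℤ)
    refine ⟨T 3 m₀ r₀ ((i : ℕ) : ℤ) / 2, ?_⟩
    have e : 2 * (T 3 m₀ r₀ ((i : ℕ) : ℤ) / 2) + 1 = T 3 m₀ r₀ ((i : ℕ) : ℤ) := by omega
    change 2 * (T 3 m₀ r₀ ((i : ℕ) : ℤ) / 2) + 1 ∈ S
    rw [e]
    exact h2
  · intro x y hxy hx
    exact hper _ _ ((hxy.mul_left 2).add_right 1) hx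

/-- at an even modulus the recurrent classes consist of odd residues -/
theorem odd_of_mem {M : ℕ} (hM : 0 < M) (h2 : M % 2 = 0) {𝒞 : Set (Fin M)}
    (h : RecurrentClass (Q 3 m₀ r₀ M) 𝒞) {x : ℤ} (hx : x ∈ ⋃ i ∈ 𝒞, B (i : ℕ) M) : x % 2 = 1 := by
  obtain ⟨-, hcl, hcom⟩ := h
  have h2' : (2 : ℤ) ∣ M := by omega
  obtain ⟨i, hi⟩ := exists_fin hM x
  rw [mem_union hi] at hx
  have hxi : x ≡ ((i : ℕ) : ℤ) [ZMOD 2] := hi.of_dvd h2'
  by_contra hcon
  have hi2 : ((i : ℕ) : ℤ) % 2 = 0 := by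
    have : x % 2 = ((i : ℕ) : ℤ) % 2 := hxi
    omega
  -- no transition into `i`
  have hno : ∀ k : Fin M, Q 3 m₀ r₀ M k i = 0 := by
    intro k
    apply Q_zero
    intro z hz
    have h3 : T 3 m₀ r₀ z % 2 = ((i : ℕ) : ℤ) % 2 := hz.of_dvd h2'
    have h4 := T_odd z
    omega
  obtain ⟨j, hj⟩ := exists_fin hM (T 3 m₀ r₀ x)
  have hjC : j ∈ 𝒞 := hcl i hx j (Q_pos hM i j x hi hj)
  obtain ⟨n, hn⟩ := hcom j hjC i hx
  cases n with
  | zero =>
    rw [pow_zero, Matrix.one_apply] at hn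
    split_ifs at hn with hji
    · subst hji
      have h3 : T 3 m₀ r₀ x % 2 = ((j : ℕ) : ℤ) % 2 := hj.of_dvd h2'
      have h4 := T_odd x
      omega
    · exact lt_irrefl _ hn
  | succ n =>
    rw [pow_succ, Matrix.mul_apply] at hn
    rw [Finset.sum_eq_zero (fun k _ => by rw [hno k, mul_zero])] at hn
    exact lt_irrefl _ hn

theorem E_subset : E 3 m₀ r₀ ⊆ {Set.univ, {x : ℤ | x % 2 = 1}} := by
  rintro S ⟨M, hM, 𝒞, h𝒞, rfl⟩
  have hM0 : 0 < M := by omega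
  have hodd := fun y => odd_mem hM0 h𝒞.1 h𝒞.2.1 y
  rcases Nat.mod_two_eq_zero_or_one M with h2 | h2
  · right
    rw [Set.mem_singleton_iff]
    ext x
    constructor
    · intro hx
      exact odd_of_mem hM0 h2 h𝒞 hx
    · intro hx
      have hx' : x % 2 = 1 := hx
      have h1 := hodd (x / 2)
      have e : 2 * (x / 2) + 1 = x := by omega
      rwa [e] at h1
  · left
    rw [Set.eq_univ_iff_forall]
    intro x
    obtain ⟨i, hi⟩ := exists_fin hM0 x
    rw [mem_union hi]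
    rcases Int.emod_two_eq_zero_or_one x with h3 | h3
    · have h1 := hodd ((x + M) / 2)
      have e : 2 * ((x + M) / 2) + 1 = x + M := by omega
      rw [e] at h1
      have h4 : x + M ≡ ((i : ℕ) : ℤ) [ZMOD M] := by
        refine Int.ModEq.trans ?_ hi
        rw [Int.modEq_iff_dvd]
        exact ⟨-1, by ring⟩
      exact (mem_union h4).1 h1
    · have h1 := hodd (x / 2)
      have e : 2 * (x / 2) + 1 = x := by omega
      rw [e] at h1
      exact (mem_union hi).1 h1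

/-- There is a generalized Collatz map `T` of relatively prime type that does not map `ℤ` onto `ℤ` and
for which the collection `ℰ (T)` of the ergodic sets is finite. -/
theorem result : ∃ (d : ℕ) (m r : ℕ → ℤ), RelativelyPrimeType d m r ∧
    T d m r '' Set.univ ≠ Set.univ ∧ (E d m r).Finite := by
  refine ⟨3, m₀, r₀, ⟨by norm_num, fun i _ => by norm_num [m₀], fun i hi => ?_, ?_⟩, ?_, ?_⟩
  · interval_cases i <;> simp [m₀, r₀, Int.ModEq]
  · simp [m₀, Finset.prod_const]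
    rfl
  · intro h
    have h1 : (0 : ℤ) ∈ T 3 m₀ r₀ '' Set.univ := by rw [h]; trivial
    obtain ⟨x, -, hx⟩ := h1
    have h2 := T_odd x
    rw [hx] at h2
    norm_num at h2
  · exact (Set.toFinite {Set.univ, {x : ℤ | x % 2 = 1}}).subset E_subset

end Pool.Agent.Results.MP_c1c042_nt.FiniteNotOnto
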